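import Mathlib
import Pool.Agent.H69R3.Defs
import Pool.Agent.H151.TEmb
import Pool.Agent.Y237.TC.Cube

/-!
# t-embedded compact subspaces of Tychonoff cubes have countably many clopen sets
-/

set_option autoImplicit false

open Set Topology unitInterval

universe u

namespace Pool.Agent.Results.MP_5b7d0d_gt.CountablyManyClopenSets

open Pool.Agent.H69R3

/-- If a compact Hausdorff space `K` is homeomorphic to a t-embedded subspace of a Tychonoff cube,
then `K` has only countably many clopen subsets. In particular, if `Z` is a nonempty compact Hausdorff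
space and `κ` is uncountable, then no subspace of a Tychonoff cube homeomorphic to `{0,1}^κ × Z` is
t-embedded in the cube. -/
theorem result :
    (∀ (K : Type u) [TopologicalSpace K] [CompactSpace K] [T2Space K] (lam : Type u)
      (e : K → (lam → I)), IsEmbedding e → TEmbedded (range e) →
      {s : Set K | IsClopen s}.Countable) ∧
    ∀ (κ Z lam : Type u) [Uncountable κ] [TopologicalSpace Z] [CompactSpace Z] [T2Space Z]
      [Nonempty Z] (e : (κ → Bool) × Z → (lam → I)), IsEmbedding e → ¬ TEmbedded (range e) := by
  constructor
  · intro K _ _ _ lam e he h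
    exact Pool.Agent.Y237.TC.clopen_sets (Pool.Agent.Y237.TC.of_cube he h).1
  · intro κ Z lam _ _ _ _ _ e he h
    obtain ⟨h1, -⟩ := Pool.Agent.Y237.TC.of_cube he h
    refine Pool.Agent.H151.cantor_uncountable κ ?_
    have hinj : Function.Injective (fun g : C(κ → Bool, Bool) =>
        g.comp (⟨Prod.fst, continuous_fst⟩ : C((κ → Bool) × Z, κ → Bool))) := by
      intro g g' hgg
      ext x
      obtain ⟨z⟩ := ‹Nonempty Z›
      exact ContinuousMap.congr_fun hgg (x, z)
    exact hinj.countable

end Pool.Agent.Results.MP_5b7d0d_gt.CountablyManyClopenSets
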