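import Pool.Agent.Results.MP_5b7d0d_gt.CantorCube
import Pool.Agent.Y66.TX.Basic

/-!
The totally disconnected compact subspaces that are t-embedded in a Tychonoff cube, in a t-embedded
subspace of a cube, or in a power of the real line, are metrizable.
-/

set_option autoImplicit false

open Set Topology unitInterval
open Pool.Agent.H151 Pool.Agent.Y66.TX

namespace Pool.Agent.Results.MP_5b7d0d_gt.MetrizableOnly

universe u

/-- Let `S` be a totally disconnected compact subspace of a space `Y`. If `S` is t-embedded in `Y`,
then `S` is metrizable, in each of the following cases: (1) `Y` is a Tychonoff cube; (2) `Y` is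
homeomorphic to a t-embedded subspace of a Tychonoff cube; (3) `Y` is a power of the real line.
(4) In particular the Cantor cube `D ^ κ`, `κ` uncountable, is not t-embedded in `[0,1] ^ κ`. -/
theorem result :
    (∀ (lam : Type u) (S : Set (lam → I)), IsCompact S → TotallyDisconnectedSpace S →
      TEmbedded S → TopologicalSpace.MetrizableSpace S) ∧
    (∀ (Y : Type u) [TopologicalSpace Y] (lam : Type u) (j : Y → (lam → I)), IsEmbedding j →
      TEmbedded (range j) → ∀ S : Set Y, IsCompact S → TotallyDisconnectedSpace S →
        TEmbedded S → TopologicalSpace.MetrizableSpace S) ∧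
    (∀ (lam : Type u) (S : Set (lam → ℝ)), IsCompact S → TotallyDisconnectedSpace S →
      TEmbedded S → TopologicalSpace.MetrizableSpace S) ∧
    (∀ (κ : Type u) [Uncountable κ], ¬ TEmbedded (CantorCube.cantorCube κ)) := by
  refine ⟨?_, ?_, ?_, fun κ _ => (CantorCube.result κ).1⟩
  · intro lam S hS hd h
    have : CompactSpace S := isCompact_iff_compactSpace.1 hS
    exact metrizable_of_cube IsEmbedding.subtypeVal (temb_val h)
  · intro Y _ lam j hj hjt S hS hd h
    have : CompactSpace S := isCompact_iff_compactSpace.1 hS
    have : T2Space Y := hj.t2Space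
    exact metrizable_of_chain hj hjt IsEmbedding.subtypeVal (temb_val h)
  · intro lam S hS hd h
    have : CompactSpace S := isCompact_iff_compactSpace.1 hS
    exact metrizable_of_reals IsEmbedding.subtypeVal (temb_val h)

end Pool.Agent.Results.MP_5b7d0d_gt.MetrizableOnly
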